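import Pool.Agent.Q113.Cov.Cnt

/-!
# Turán's `(3,4)`-problem for 3-graphs without 269 pairwise covered vertices

Let `H` be a `K_4^3`-free 3-graph. Call a set `S` of vertices covering if any two vertices of `S` lie
in an edge of `H` contained in `S`. If all covering sets have at most 268 vertices, then
`|H| ≤ (5/54) n³`, and more generally `∑_{e ∈ H} ∏_{v ∈ e} w(v) ≤ (5/54) (∑ w(v))³` for all
non-negative weights `w` of the vertices. So Turán's bound holds for all `K_4^3`-free 3-graphs with
at most 268 vertices in the Lagrangian (weighted) form, and for all `K_4^3`-free 3-graphs whose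
vertices can be coloured with 268 colours such that the vertices of every edge have three colours.

Outline: a maximizer of the Lagrangian polynomial with minimal support lives on a covering set with
`m ≤ 268` vertices, and all its weighted vertex degrees are equal. The certificate of order seven of the
library (`Pool.Agent.Y435.T7`) is used for weighted vertices; here the squares for the types on three
vertices are kept. Those at coinciding vertices, which occur with probability at least `1/m`, are
bounded from below by an explicit amount.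
-/

set_option autoImplicit false
open Finset
open scoped Classical

namespace Pool.Agent.Results.MP_f1799f_co.CoveringSets

/-- The 3-graph `H` has no four vertices spanning all four triples. -/
def K43Free {n : ℕ} (H : Finset (Finset (Fin n))) : Prop :=
  ∀ S : Finset (Fin n), S.card = 4 → ∃ T ⊆ S, T.card = 3 ∧ T ∉ H

/-- Any two vertices of `S` lie in an edge of `H` all of whose vertices belong to `S`. -/
def Covering {n : ℕ} (H : Finset (Finset (Fin n))) (S : Finset (Fin n)) : Prop :=
  ∀ x ∈ S, ∀ y ∈ S, x ≠ y → ∃ e ∈ H, x ∈ e ∧ y ∈ e ∧ e ⊆ S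

open Pool.Agent.Q113.Cov Pool.Agent.H122R2.N6

theorem key {n : ℕ} {H : Finset (Finset (Fin n))} (h3 : ∀ e ∈ H, e.card = 3) (hK : K43Free H)
    {k : ℕ} (hk : 268 ≤ k) (hc : ∀ S, Covering H S → S.card ≤ k) (w : Fin n → ℝ) (hw : ∀ v, 0 ≤ w v) :
    6 * ∑ e ∈ H, ∏ v ∈ e, w v ≤ (0.55756 - 0.53 / k) * (∑ v, w v) ^ 3 ∧
      (k = 268 → 54 * ∑ e ∈ H, ∏ v ∈ e, w v ≤ 5 * (∑ v, w v) ^ 3) := by
  have hs0 : 0 ≤ ∑ v, w v := sum_nonneg fun v _ => hw v
  rcases hs0.eq_or_lt with hs | hs
  · have hz : ∀ v, w v = 0 := fun v =>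
      (sum_eq_zero_iff_of_nonneg fun v _ => hw v).mp hs.symm v (mem_univ v)
    have h0 : ∑ e ∈ H, ∏ v ∈ e, w v = 0 := by
      refine sum_eq_zero fun e he => ?_
      obtain ⟨x, hx⟩ := card_pos.mp (by rw [h3 e he]; norm_num : 0 < e.card)
      exact prod_eq_zero hx (hz x)
    rw [h0, ← hs]
    norm_num
  · set s := ∑ v, w v with hsd
    have hne : Nonempty (Fin n) := by
      by_contra hcon
      rw [not_nonempty_iff] at hcon
      have : s = 0 := by rw [hsd]; exact sum_eq_zero fun v _ => (hcon.false v).elim
      linarith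
    have hw' : (fun v => w v / s) ∈ stdSimplex ℝ (Fin n) := by
      refine ⟨fun v => div_nonneg (hw v) hs.le, ?_⟩
      show ∑ v, w v / s = 1
      rw [← sum_div, ← hsd, div_self hs.ne']
    have hfree : Pool.Agent.H122R2.N6.K43Free H := hK
    have hd := dens (E := tri H) (tri_sy H) (tri_noK4 h3 hfree)
      (fun x y => tri_zero h3 (Or.inl rfl)) k hk (fun S hS => hc S fun x hx y hy hxy => by
        obtain ⟨z, hz, h1⟩ := hS x hx y hy hxy
        obtain ⟨e, he, hxe, hye, h4⟩ := exists_edge h1
        refine ⟨e, he, hxe, hye, fun t ht => ?_⟩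
        rcases h4 t ht with rfl | rfl | rfl
        exacts [hx, hy, hz]) hw'
    have h6 := six_weight_le (w := fun v => w v / s) h3 (fun v => div_nonneg (hw v) hs.le)
    have hscale : ∑ e ∈ H, ∏ v ∈ e, w v / s = (∑ e ∈ H, ∏ v ∈ e, w v) / s ^ 3 := by
      rw [sum_div]
      refine sum_congr rfl fun e he => ?_
      rw [prod_div_distrib, prod_const, h3 e he]
    rw [hscale] at h6
    have hs3 : 0 < s ^ 3 := by positivity
    have hmul : (∑ e ∈ H, ∏ v ∈ e, w v) = (∑ e ∈ H, ∏ v ∈ e, w v) / s ^ 3 * s ^ 3 := by
      field_simp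
    refine ⟨?_, fun h => ?_⟩
    · rw [hmul]
      have := mul_le_mul_of_nonneg_right (h6.trans hd.1) hs3.le
      linarith
    · rw [hmul]
      have := mul_le_mul_of_nonneg_right (h6.trans (hd.2 h)) hs3.le
      linarith

/-- Turán's bound, in the weighted (Lagrangian) form, for `K_4^3`-free 3-graphs whose covering sets
have at most 268 vertices; the weights `w = 1` give `54 |H| ≤ 5 n³`. -/
theorem result {n : ℕ} (H : Finset (Finset (Fin n))) (h3 : ∀ e ∈ H, e.card = 3) (hK : K43Free H)
    (hc : ∀ S : Finset (Fin n), Covering H S → S.card ≤ 268)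
    (w : Fin n → ℝ) (hw : ∀ v, 0 ≤ w v) :
    ∑ e ∈ H, ∏ v ∈ e, w v ≤ 5 / 54 * (∑ v, w v) ^ 3 := by
  have h := (key h3 hK le_rfl hc w hw).2 rfl
  linarith

end Pool.Agent.Results.MP_f1799f_co.CoveringSets
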