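import Pool.Agent.Q113.Lnk.Fin
import Pool.Agent.Q113.Lnk.Core

/-!
# Turán density of `K_4^3`: the links in large subgraphs

In Turán's construction of `K_4^3`-free 3-graphs with density `5/9` the link of every vertex has induced
claws, paws, 4-cycles, diamonds, edges with two isolated vertices, and independent sets of four vertices.
Here it is proved that this holds in a hereditary sense for every `K_4^3`-free 3-graph whose density is
above a certain constant less than `5/9` (for example for every counterexample to Turán's conjecture): it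
contains a subgraph induced on a positive proportion of its vertices, of at least the same density and
with almost equal or larger degrees than the average, in which the link of every vertex has a
positive proportion of induced copies of each of these graphs. Equivalently: if in every large induced
subgraph of a `K_4^3`-free 3-graph some vertex (an arbitrary one, depending on the subgraph) has a link
with few induced copies of one of these graphs, then the density is at most `.5497` (claw), `.5496` (paw),
`.5529` (4-cycle), `.537` (diamond), `.5551` (edge with two isolated vertices), `.55542` (four isolated vertices, or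
any of the six graphs, depending on the subgraph).

Outline: an inequality between the degree of one vertex, the number of edges and the number of the induced
copies of `F` in the link of this vertex (from flag algebra certificates for pairs of a 3-graph and the
link of a vertex), applied in a set `U` of vertices which maximizes `e(U) / |U|^(3 - η)`.
-/

set_option autoImplicit false
open Finset
open scoped Classical

namespace Pool.Agent.Results.MP_f1799f_co.LargeSubgraphLinks

/-- The 3-graph `H` has no four vertices spanning all four triples. -/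
def K43Free {n : ℕ} (H : Finset (Finset (Fin n))) : Prop :=
  ∀ S : Finset (Fin n), S.card = 4 → ∃ T ⊆ S, T.card = 3 ∧ T ∉ H

/-- The link of the vertex `v` in the 3-graph `H` induces a graph isomorphic to `F` (a graph with the
vertices `0, 1, 2, 3`, given by its edges) on the four different vertices `f 0, f 1, f 2, f 3`, which are
different from `v`. -/
def InducedInLink {n : ℕ} (H : Finset (Finset (Fin n))) (F : Finset (Finset (Fin 4))) (v : Fin n)
    (f : Fin 4 → Fin n) : Prop :=
  Function.Injective f ∧ (∀ i, f i ≠ v) ∧ ∃ σ : Equiv.Perm (Fin 4), ∀ i j : Fin 4, i ≠ j →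
    (({v, f i, f j} : Finset (Fin n)) ∈ H ↔ ({σ i, σ j} : Finset (Fin 4)) ∈ F)

/-- The number of ordered quadruples in the set `U` which induce a copy of `F` in the link of `v` (every
induced copy of `F` is counted 24 times). -/
noncomputable def copiesIn {n : ℕ} (H : Finset (Finset (Fin n))) (F : Finset (Finset (Fin 4)))
    (U : Finset (Fin n)) (v : Fin n) : ℕ :=
  (univ.filter fun f : Fin 4 → Fin n => (∀ i, f i ∈ U) ∧ InducedInLink H F v f).card

/-- the number of edges of `H` inside `U` -/
noncomputable def edgesIn {n : ℕ} (H : Finset (Finset (Fin n))) (U : Finset (Fin n)) : ℕ := (H.filter fun e => e ⊆ U).card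

/-- the number of edges of `H` inside `U` which contain `v` -/
noncomputable def degreeIn {n : ℕ} (H : Finset (Finset (Fin n))) (U : Finset (Fin n)) (v : Fin n) : ℕ :=
  (H.filter fun e => e ⊆ U ∧ v ∈ e).card

/-- the claw `K_{1,3}` -/
def claw : Finset (Finset (Fin 4)) := {{0, 1}, {0, 2}, {0, 3}}
/-- the paw, a triangle with a pendant edge -/
def paw : Finset (Finset (Fin 4)) := {{0, 1}, {0, 2}, {1, 2}, {0, 3}}
/-- the cycle with four vertices -/
def fourCycle : Finset (Finset (Fin 4)) := {{0, 1}, {1, 2}, {0, 3}, {2, 3}}
/-- the diamond `K_4^-` -/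
def diamond : Finset (Finset (Fin 4)) := {{0, 2}, {1, 2}, {0, 3}, {1, 3}, {2, 3}}
/-- an edge with two isolated vertices -/
def oneEdge : Finset (Finset (Fin 4)) := {{0, 1}}
/-- four isolated vertices -/
def noEdge : Finset (Finset (Fin 4)) := ∅

/-- The six graphs `F` with the constants `κ`. -/
noncomputable def table : List (Finset (Finset (Fin 4)) × ℝ) :=
  [(claw, 5497 / 10000), (paw, 5496 / 10000), (fourCycle, 5529 / 10000), (diamond, 5370 / 10000),
    (oneEdge, 5551 / 10000), (noEdge, 55542 / 100000)]

theorem table_V : ∀ p ∈ table, ∃ μ β : ℝ, 0 ≤ μ ∧ β ≤ p.2 * (1 + μ) ∧ Pool.Agent.Q113.Lnk.VIneq p.1 μ β 4000 := by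
  intro p hp
  unfold table at hp
  simp only [List.mem_cons, List.not_mem_nil, or_false] at hp
  rcases hp with rfl | rfl | rfl | rfl | rfl | rfl
  · exact ⟨_, _, by norm_num, by norm_num, Pool.Agent.Q113.Lnk.claw_V⟩
  · exact ⟨_, _, by norm_num, by norm_num, Pool.Agent.Q113.Lnk.paw_V⟩
  · exact ⟨_, _, by norm_num, by norm_num, Pool.Agent.Q113.Lnk.fourCycle_V⟩
  · exact ⟨_, _, by norm_num, by norm_num, Pool.Agent.Q113.Lnk.diamond_V⟩
  · exact ⟨_, _, by norm_num, by norm_num, Pool.Agent.Q113.Lnk.oneEdge_V⟩
  · exact ⟨_, _, by norm_num, by norm_num, Pool.Agent.Q113.Lnk.noEdge_V⟩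

/-- Let `c, ε > 0`. There are `δ > 0` and `n₀` such that every `K_4^3`-free 3-graph `H` on `n ≥ n₀` vertices with more than
`(c + ε) n³ / 6` edges has a set `U` of at least `δ n` vertices such that the subgraph induced on `U` is at least as dense
as `H`, all its degrees are at least `1 - ε` times their average, and, for every vertex `v` in `U` and each of the
six graphs `F` with constant `κ ≤ c`, the link of `v` in this subgraph has more than `δ |U|⁴` ordered
induced copies of `F`. (All six graphs if `c = .55542`, which is less than `5/9`.) -/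
theorem result : ∀ c ε : ℝ, 0 < c → 0 < ε → ∃ δ : ℝ, 0 < δ ∧ ∃ n₀ : ℕ, ∀ n : ℕ, n₀ ≤ n →
    ∀ H : Finset (Finset (Fin n)), (∀ e ∈ H, e.card = 3) → K43Free H → (c + ε) * (n : ℝ) ^ 3 < 6 * (H.card : ℝ) →
      ∃ U : Finset (Fin n), δ * n ≤ (U.card : ℝ) ∧ (H.card : ℝ) * (U.card : ℝ) ^ 3 ≤ edgesIn H U * (n : ℝ) ^ 3 ∧
        (∀ v ∈ U, (1 - ε) * (3 * (edgesIn H U : ℝ)) ≤ U.card * degreeIn H U v) ∧
        ∀ v ∈ U, ∀ p ∈ table, p.2 ≤ c → δ * (U.card : ℝ) ^ 4 < copiesIn H p.1 U v := by
  intro c ε hc hε
  obtain ⟨δ, hδ, n₀, h⟩ := Pool.Agent.Q113.Lnk.core (C := 4000) (by norm_num) (c := c)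
    (P := fun F => ∃ p ∈ table, p.2 ≤ c ∧ p.1 = F) hc.le (by
      rintro F ⟨p, hp, hpc, rfl⟩
      obtain ⟨μ, β, h1, h2, h3⟩ := table_V p hp
      exact ⟨μ, β, h1, h2.trans (mul_le_mul_of_nonneg_right hpc (by linarith)), h3⟩) ε hε
  refine ⟨δ, hδ, n₀, fun n hn H h3 hK hH => ?_⟩
  obtain ⟨U, h1, h2, h4, h5⟩ := h n hn H h3 hK hH
  exact ⟨U, h1, h2, h4, fun v hv p hp hpc => h5 v hv p.1 ⟨p, hp, hpc, rfl⟩⟩

end Pool.Agent.Results.MP_f1799f_co.LargeSubgraphLinks
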