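import Pool.Agent.Q113.Cov.Unc
import Pool.Agent.Q113.Cov.Cnt2

/-!
# Turán's `(3,4)`-problem for 3-graphs with many pairs of small codegree

The codegree of a pair of vertices of a 3-graph is the number of edges that contain it. Let `H` be a
`K_4^3`-free 3-graph on `n` vertices and `0 ≤ δ < 1/7`. If at least `n² / (90 (1 - 7δ)²)` pairs of
vertices have codegree at most `δ n`, then `|H| ≤ (5/54) n³`, as conjectured by Turán for all
`K_4^3`-free 3-graphs. For `δ = 0`: Turán's bound holds if at least `n²/90` pairs of vertices are not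
contained in any edge (about 2.2 percent of all pairs). For `δ = 1/20`: it holds if at least `n²/38`
pairs (5.3 percent) have codegree at most `n/20`.

Outline: the order-seven certificate of the library (`Pool.Agent.Y435.T7`) is used with the squares kept
for the types on three vertices `a, b, c`. If the codegree of `a, b` is small, the flags of this type
(on `c` and two further vertices) satisfy, on average, linear inequalities which separate them from zero;
the coefficients are checked for all 3-graphs on five vertices. The vertices of small degree are treated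
with the bound `0.55756` of the library after the deletion of a part of them.
-/

set_option autoImplicit false
open Finset
open scoped Classical

namespace Pool.Agent.Results.MP_f1799f_co.SmallCodegrees

/-- The 3-graph `H` has no four vertices spanning all four triples. -/
def K43Free {n : ℕ} (H : Finset (Finset (Fin n))) : Prop :=
  ∀ S : Finset (Fin n), S.card = 4 → ∃ T ⊆ S, T.card = 3 ∧ T ∉ H

/-- The number of edges of `H` that contain the set `s`. -/
noncomputable def codegree {n : ℕ} (H : Finset (Finset (Fin n))) (s : Finset (Fin n)) : ℕ :=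
  (H.filter fun e => s ⊆ e).card

/-- The pairs of vertices of codegree at most `δ n`. -/
noncomputable def smallPairs {n : ℕ} (H : Finset (Finset (Fin n))) (δ : ℝ) : Finset (Finset (Fin n)) :=
  (univ.powersetCard 2).filter fun s => (codegree H s : ℝ) ≤ δ * n

open Pool.Agent.Q113.Cov Pool.Agent.H122R2.N6

theorem mem_pair {n : ℕ} {s : Finset (Fin n)} (hs : s.card = 2) {a b : Fin n} (hab : a ≠ b)
    (ha : a ∈ s) (hb : b ∈ s) : ∀ t ∈ s, t = a ∨ t = b := by
  obtain ⟨x, y, _, rfl⟩ := Finset.card_eq_two.mp hs
  intro t ht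
  simp only [mem_insert, mem_singleton] at ha hb ht
  rcases ha with rfl | rfl <;> rcases hb with rfl | rfl
  · exact absurd rfl hab
  · exact ht
  · exact ht.symm
  · exact absurd rfl hab

/-- If at least `n² / (90 (1 - 7δ)²)` pairs of vertices of a `K_4^3`-free 3-graph have codegree at most
`δ n`, then it satisfies Turán's bound. -/
theorem result {n : ℕ} (H : Finset (Finset (Fin n))) (h3 : ∀ e ∈ H, e.card = 3) (hK : K43Free H)
    (δ : ℝ) (hδ0 : 0 ≤ δ) (hδ1 : δ < 1 / 7)
    (hP : (n : ℝ) ^ 2 / (90 * (1 - 7 * δ) ^ 2) ≤ (smallPairs H δ).card) :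
    (H.card : ℝ) ≤ 5 / 54 * (n : ℝ) ^ 3 := by
  rcases Nat.eq_zero_or_pos n with rfl | hn
  · have : H = ∅ := by
      rw [eq_empty_iff_forall_notMem]
      intro e he
      have h1 := h3 e he
      have h2 := card_le_univ e
      rw [Fintype.card_fin] at h2
      omega
    rw [this]
    simp
  have hn0 : (0 : ℝ) < n := by exact_mod_cast hn
  have hw' : (fun _ : Fin n => (1 : ℝ) / n) ∈ stdSimplex ℝ (Fin n) := by
    refine ⟨fun v => by positivity, ?_⟩
    rw [sum_const, card_univ, Fintype.card_fin, nsmul_eq_mul]
    field_simp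
  have hfree : Pool.Agent.H122R2.N6.K43Free H := hK
  have h17 : 0 < 1 - 7 * δ := by linarith
  have hcard : ∀ s ∈ smallPairs H δ, s.card = 2 := fun s hs => (mem_powersetCard.mp (mem_filter.mp hs).1).2
  have hd := small_codeg (E := tri H) (tri_sy H) (tri_noK4 h3 hfree) hw' hδ0 (by linarith)
    (fun a b => if a ≠ b ∧ ∃ s ∈ smallPairs H δ, a ∈ s ∧ b ∈ s then 1 else 0)
    (fun a b => by split_ifs <;> norm_num) (fun a b => by split_ifs <;> norm_num)
    (fun a b => by
      have : (b ≠ a ∧ ∃ s ∈ smallPairs H δ, b ∈ s ∧ a ∈ s) ↔ (a ≠ b ∧ ∃ s ∈ smallPairs H δ, a ∈ s ∧ b ∈ s) :=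
        ⟨fun ⟨h, s, h1, h2, h3⟩ => ⟨h.symm, s, h1, h3, h2⟩, fun ⟨h, s, h1, h2, h3⟩ => ⟨h.symm, s, h1, h3, h2⟩⟩
      simp only [this])
    (fun a b => by
      by_cases h : a ≠ b ∧ ∃ s ∈ smallPairs H δ, a ∈ s ∧ b ∈ s
      · rw [if_pos h, one_mul, one_mul]
        obtain ⟨hab, s, hs, ha, hb⟩ := h
        have h1 : (codegree H s : ℝ) ≤ δ * n := (mem_filter.mp hs).2
        have h4 : ∑ c, (tri H a b c : ℝ) ≤ codegree H s :=
          sum_tri_le_of h3 fun e he hae hbe => mem_filter.mpr ⟨he, fun t ht => by
            rcases mem_pair (hcard s hs) hab ha hb t ht with rfl | rfl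
            exacts [hae, hbe]⟩
        unfold CC
        rw [← mul_sum, one_div, inv_mul_le_iff₀ hn0]
        linarith
      · rw [if_neg h]; simp) (by
      have h1 := avg_pairs n hn (smallPairs H δ) hcard
      rw [div_le_iff₀ (by positivity)] at hP
      have h2 : 1 ≤ 45 * (1 - 7 * δ) ^ 2 * (2 * ((smallPairs H δ).card : ℝ) / (n : ℝ) ^ 2) := by
        rw [← mul_div_assoc, le_div_iff₀ (by positivity)]
        linarith
      have h3 := mul_le_mul_of_nonneg_left h1 (show (0 : ℝ) ≤ 45 * (1 - 7 * δ) ^ 2 by positivity)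
      refine h2.trans (h3.trans (le_of_eq ?_))
      congr!)
  have h6 := small_codeg_count h3 (5 / 9) n hn hd
  linarith

end Pool.Agent.Results.MP_f1799f_co.SmallCodegrees
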