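import Pool.Agent.Q113.Hyb.Half

/-!
# Turán's `(3,4)`-problem: independent sets and sparse halves

Let `H` be a `K_4^3`-free 3-graph on `n` vertices. Turán's conjecture says that
`|H| ≤ (5/54 + o(1)) n³`; the best bound of the library is `6 |H| ≤ 0.55756 n³`.

* If at least `7n/15` vertices are independent (contain no edge), then `6 |H| ≤ (5/9 - 1/10000) n³`, less
  than in Turán's construction.
* For every set `U` of at least `n/2` vertices, `|H| ≤ (5/54) n³ + (6/25) (e(U) - n³/720)`, where `e(U)` is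
  the number of edges inside `U`. So if `|H| ≥ (5/54) n³`, then every half of the vertices contains at
  least `n³/720` edges, that is, has density at least `1/15`; and a counterexample to Turán's conjecture
  has no sparse half.

Both are proved for vertex weights.

Outline: combination of the order-seven certificate of the library, in which squares at triples remain,
with a sum of squares certificate for 3-graphs of order five with coloured vertices (the vertices of `U`; a
vertex of `U` is split into a coloured and an uncoloured copy so that exactly `7/15` or `1/2` of the weight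
is coloured), which bounds these squares from below.
-/

set_option autoImplicit false
open Finset
open scoped Classical

namespace Pool.Agent.Results.MP_f1799f_co.SparseHalves

/-- The 3-graph `H` has no four vertices spanning all four triples. -/
def K43Free {n : ℕ} (H : Finset (Finset (Fin n))) : Prop :=
  ∀ S : Finset (Fin n), S.card = 4 → ∃ T ⊆ S, T.card = 3 ∧ T ∉ H

/-- The edges of `H` inside the set `U`. -/
noncomputable def inside {n : ℕ} (H : Finset (Finset (Fin n))) (U : Finset (Fin n)) :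
    Finset (Finset (Fin n)) := H.filter fun e => e ⊆ U

open Pool.Agent.Q113.Cov Pool.Agent.Q113.Hyb Pool.Agent.H122R2.N6

theorem scale {n : ℕ} {H : Finset (Finset (Fin n))} (h3 : ∀ e ∈ H, e.card = 3) (w : Fin n → ℝ) (s : ℝ) :
    ∑ e ∈ H, ∏ v ∈ e, w v / s = (∑ e ∈ H, ∏ v ∈ e, w v) / s ^ 3 := by
  rw [sum_div]
  refine sum_congr rfl fun e he => ?_
  rw [prod_div_distrib, prod_const, h3 e he]

theorem zero_case {n : ℕ} {H : Finset (Finset (Fin n))} (h3 : ∀ e ∈ H, e.card = 3) {w : Fin n → ℝ}
    (hz : ∀ v, w v = 0) : ∑ e ∈ H, ∏ v ∈ e, w v = 0 := by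
  refine sum_eq_zero fun e he => ?_
  obtain ⟨x, hx⟩ := card_pos.mp (by rw [h3 e he]; norm_num : 0 < e.card)
  exact prod_eq_zero hx (hz x)

theorem indep {n : ℕ} (H : Finset (Finset (Fin n))) (h3 : ∀ e ∈ H, e.card = 3) (hK : K43Free H)
    (U : Finset (Fin n)) (hU : ∀ e ∈ H, ¬ e ⊆ U) (w : Fin n → ℝ) (hw : ∀ v, 0 ≤ w v)
    (hwU : 7 * ∑ v, w v ≤ 15 * ∑ u ∈ U, w u) :
    6 * ∑ e ∈ H, ∏ v ∈ e, w v ≤ (5 / 9 - 1 / 10000) * (∑ v, w v) ^ 3 := by
  have hs0 : 0 ≤ ∑ v, w v := sum_nonneg fun v _ => hw v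
  rcases hs0.eq_or_lt with hs | hs
  · rw [zero_case h3 fun v => (sum_eq_zero_iff_of_nonneg fun v _ => hw v).mp hs.symm v (mem_univ v), ← hs]
    norm_num
  · set s := ∑ v, w v with hsd
    have hw' : (fun v => w v / s) ∈ stdSimplex ℝ (Fin n) := by
      refine ⟨fun v => div_nonneg (hw v) hs.le, ?_⟩
      show ∑ v, w v / s = 1
      rw [← sum_div, ← hsd, div_self hs.ne']
    have hfree : Pool.Agent.H122R2.N6.K43Free H := hK
    have hd := indep_le (E := tri H) (tri_sy H) (tri_noK4 h3 hfree) hw' U (by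
        rw [← sum_div, le_div_iff₀ hs]
        linarith) (fun a ha b hb c hc => by
        unfold tri
        rw [if_neg]
        intro hm
        refine hU _ hm fun x hx => ?_
        simp only [mem_insert, mem_singleton] at hx
        rcases hx with rfl | rfl | rfl <;> assumption)
    have h6 := six_weight_le (w := fun v => w v / s) h3 (fun v => div_nonneg (hw v) hs.le)
    rw [scale h3] at h6
    have hs3 : 0 < s ^ 3 := by positivity
    have hmul : (∑ e ∈ H, ∏ v ∈ e, w v) = (∑ e ∈ H, ∏ v ∈ e, w v) / s ^ 3 * s ^ 3 := by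
      field_simp
    rw [hmul]
    have := mul_le_mul_of_nonneg_right (h6.trans hd) hs3.le
    linarith

theorem half {n : ℕ} (H : Finset (Finset (Fin n))) (h3 : ∀ e ∈ H, e.card = 3) (hK : K43Free H)
    (U : Finset (Fin n)) (w : Fin n → ℝ) (hw : ∀ v, 0 ≤ w v) (hwU : ∑ v, w v ≤ 2 * ∑ u ∈ U, w u) :
    ∑ e ∈ H, ∏ v ∈ e, w v ≤ 5 / 54 * (∑ v, w v) ^ 3 +
      6 / 25 * (∑ e ∈ inside H U, ∏ v ∈ e, w v - (∑ v, w v) ^ 3 / 720) := by
  have h3' : ∀ e ∈ inside H U, e.card = 3 := fun e he => h3 e (mem_filter.mp he).1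
  have hs0 : 0 ≤ ∑ v, w v := sum_nonneg fun v _ => hw v
  rcases hs0.eq_or_lt with hs | hs
  · have hz : ∀ v, w v = 0 := fun v =>
      (sum_eq_zero_iff_of_nonneg fun v _ => hw v).mp hs.symm v (mem_univ v)
    rw [zero_case h3 hz, zero_case h3' hz, ← hs]
    norm_num
  · set s := ∑ v, w v with hsd
    have hw' : (fun v => w v / s) ∈ stdSimplex ℝ (Fin n) := by
      refine ⟨fun v => div_nonneg (hw v) hs.le, ?_⟩
      show ∑ v, w v / s = 1
      rw [← sum_div, ← hsd, div_self hs.ne']
    have hfree : Pool.Agent.H122R2.N6.K43Free H := hK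
    have hd := half_le (E := tri H) (tri_sy H) (tri_noK4 h3 hfree) hw' U (by
        rw [← sum_div, le_div_iff₀ hs]
        linarith)
    have h6 := six_weight_le (w := fun v => w v / s) h3 (fun v => div_nonneg (hw v) hs.le)
    have h7 := six_weight_ge (w := fun v => if v ∈ U then w v / s else 0) h3 (fun v => by
      show 0 ≤ if v ∈ U then w v / s else 0
      split_ifs
      exacts [div_nonneg (hw v) hs.le, le_rfl])
    have h8 : ∑ e ∈ H, ∏ v ∈ e, (if v ∈ U then w v / s else 0) = ∑ e ∈ inside H U, ∏ v ∈ e, w v / s := by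
      unfold inside
      rw [sum_filter]
      refine sum_congr rfl fun e he => ?_
      by_cases h : e ⊆ U
      · rw [if_pos h]
        exact prod_congr rfl fun v hv => if_pos (h hv)
      · rw [if_neg h]
        obtain ⟨x, hx, hxU⟩ := not_subset.mp h
        exact prod_eq_zero hx (if_neg hxU)
    rw [h8, scale h3'] at h7
    rw [scale h3] at h6
    have hs3 : 0 < s ^ 3 := by positivity
    set A := ∑ e ∈ H, ∏ v ∈ e, w v
    set B := ∑ e ∈ inside H U, ∏ v ∈ e, w v
    have hA : A = A / s ^ 3 * s ^ 3 := by field_simp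
    have hB : B = B / s ^ 3 * s ^ 3 := by field_simp
    have h9 : A / s ^ 3 ≤ 5 / 54 + 6 / 25 * (B / s ^ 3 - 1 / 720) := by linarith
    have := mul_le_mul_of_nonneg_right h9 hs3.le
    rw [← hA, add_mul, mul_assoc (6 / 25 : ℝ), sub_mul, ← hB] at this
    linarith

/-- `K_4^3`-free 3-graphs with an independent set `U` of at least `7/15` of the vertices (or of the
weight) have fewer edges than Turán's construction; and in all `K_4^3`-free 3-graphs the number of edges is
bounded in terms of the number of edges inside any half of the vertices (of the weight). -/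
theorem result {n : ℕ} (H : Finset (Finset (Fin n))) (h3 : ∀ e ∈ H, e.card = 3) (hK : K43Free H)
    (U : Finset (Fin n)) :
    (7 * n ≤ 15 * U.card → (∀ e ∈ H, ¬ e ⊆ U) → 6 * (H.card : ℝ) ≤ (5 / 9 - 1 / 10000) * (n : ℝ) ^ 3) ∧
    (n ≤ 2 * U.card →
      (H.card : ℝ) ≤ 5 / 54 * (n : ℝ) ^ 3 + 6 / 25 * ((inside H U).card - (n : ℝ) ^ 3 / 720)) ∧
    (∀ w : Fin n → ℝ, (∀ v, 0 ≤ w v) →
      (7 * ∑ v, w v ≤ 15 * ∑ u ∈ U, w u → (∀ e ∈ H, ¬ e ⊆ U) →
        6 * ∑ e ∈ H, ∏ v ∈ e, w v ≤ (5 / 9 - 1 / 10000) * (∑ v, w v) ^ 3) ∧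
      (∑ v, w v ≤ 2 * ∑ u ∈ U, w u →
        ∑ e ∈ H, ∏ v ∈ e, w v ≤ 5 / 54 * (∑ v, w v) ^ 3 +
          6 / 25 * (∑ e ∈ inside H U, ∏ v ∈ e, w v - (∑ v, w v) ^ 3 / 720))) := by
  refine ⟨fun hc hU => ?_, fun hc => ?_, fun w hw => ⟨fun h hU => indep H h3 hK U hU w hw h, half H h3 hK U w hw⟩⟩
  · have h := indep H h3 hK U hU (fun _ => 1) (fun _ => zero_le_one) (by
      simp only [sum_const, card_univ, Fintype.card_fin, nsmul_eq_mul, mul_one]
      exact_mod_cast hc)
    simpa only [prod_const_one, sum_const, card_univ, Fintype.card_fin, nsmul_eq_mul, mul_one] using h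
  · have h := half H h3 hK U (fun _ => 1) (fun _ => zero_le_one) (by
      simp only [sum_const, card_univ, Fintype.card_fin, nsmul_eq_mul, mul_one]
      exact_mod_cast hc)
    simpa only [prod_const_one, sum_const, card_univ, Fintype.card_fin, nsmul_eq_mul, mul_one] using h

end Pool.Agent.Results.MP_f1799f_co.SparseHalves
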